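import Pool.Agent.V11247.EqT.C2

/-!
# A non-Hamiltonian graph with the least possible cost of equality testing

The Petersen graph on `k = 10` vertices is not Hamiltonian, and its cost per bit is `k / 2`.
-/

set_option autoImplicit false

namespace Pool.Agent.Results.MP_76d60e_lc.PetersenHalf

open Filter Topology Pool.Agent.V11247.EqT

/-- **Result.** The Petersen graph, on ten vertices, is connected and not Hamiltonian, and its cost
per bit is `10 / 2`. -/
theorem result : petersen.Connected ∧ ¬ petersen.IsHamiltonian ∧
    Tendsto (fun n : ℕ => (eqCost petersen (Fin n → Bool) : ℝ) / n) atTop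
      (𝓝 ((Fintype.card (Fin 10) : ℝ) / 2)) := by
  refine ⟨petersen_connected, petersen_not_hamiltonian, ?_⟩
  have h : ((Fintype.card (Fin 10) : ℝ) / 2) = 5 := by
    rw [Fintype.card_fin]; norm_num
  rw [h]
  exact petersen_rate

end Pool.Agent.Results.MP_76d60e_lc.PetersenHalf
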